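import Mathlib
import Pool.Graph.R_seed8.W437.HC.Period

/-!
# Tate classes on the powers of an abelian variety, and systems of algebraic classes

Let `A` be an abelian variety of dimension `g` over a finitely generated field `k`, `ℓ` a prime number
which is different from the characteristic, and `K = ℚ_ℓ`. With respect to a symplectic basis for the
Weil pairing of a polarization, the Tate module `V_ℓ(A)` is the space `V = K ^ (2 g)` of the vectors with
coordinates in `K` indexed by `Fin g ⊕ Fin g`, with the standard symplectic form `Om g K`.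
-/

namespace Pool.Agent.H841.TT

open Matrix Module Pool.Agent.W437.HC

/-- The space `V_ℓ(A)` of dimension `2 g` over `K`. -/
abbrev VV (K : Type) (g : ℕ) : Type := Fin g ⊕ Fin g → K

/-- The matrices of the endomorphisms of `V_ℓ(A)`. -/
abbrev Mt (K : Type) (g : ℕ) : Type := Matrix (Fin g ⊕ Fin g) (Fin g ⊕ Fin g) K

variable {K : Type} [Field K] {g : ℕ}

/-- The homomorphism `A ^ ι' → A ^ ι` given by an integer matrix, on the Tate modules. -/
def homM {ι ι' : Type} [Fintype ι'] (M : Matrix ι ι' ℤ) : (ι' → VV K g) →ₗ[K] (ι → VV K g) :=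
  LinearMap.pi fun i => ∑ j, (M i j : K) • LinearMap.proj j

/-- The cohomology of `A ^ ι` in the degree given by the set `κ`: the alternating forms in variables
indexed by `κ` on `V_ℓ(A) ^ ι`. -/
abbrev Coh (K : Type) [Field K] (g : ℕ) (ι κ : Type) : Type := (ι → VV K g) [⋀^κ]→ₗ[K] K

/-- `h` is the cup product of `f` and `f'` (up to a non-zero factor): the alternation of the product of
the forms. -/
def IsCup {ι κ κ' : Type} [Fintype κ] [DecidableEq κ] [Fintype κ'] [DecidableEq κ']
    (f : Coh K g ι κ) (f' : Coh K g ι κ') (h : Coh K g ι (κ ⊕ κ')) : Prop :=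
  ∀ v, h v = ∑ σ : Equiv.Perm (κ ⊕ κ'), ((Equiv.Perm.sign σ : ℤ) : K) *
    (f (fun k => v (σ (Sum.inl k))) * f' (fun k => v (σ (Sum.inr k))))

/-- `f'` is the push-forward of the class `f` along the projection `A ^ (ι ⊕ ι') → A ^ ι` (up to a
non-zero factor): the form is evaluated at a basis of `V_ℓ(A ^ ι')`. -/
def IsPush {ι ι' κ κ' : Type} (b : Basis κ' K (ι' → VV K g)) (f : Coh K g (ι ⊕ ι') (κ ⊕ κ'))
    (f' : Coh K g ι κ) : Prop :=
  ∀ v, f' v = f (Sum.elim (fun k => Sum.elim (v k) 0) fun k => Sum.elim 0 (b k))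

/-- The Tate classes of degree `2 r` in the cohomology of `A ^ ι`. The cohomology group of degree `d`
of `A ^ ι` is the space of the alternating forms in `d` variables in `V_ℓ(A) ^ ι`; `𝔤` is the Lie algebra
of the image of the Galois group in the automorphisms of `V_ℓ(A)`, and the element `X` of `𝔤` acts on
`ℚ_ℓ(1)` as the multiplication by its multiplier `c` for the Weil pairing. The form `f` is a Tate class
(in the cohomology of the variety over an algebraic closure, twisted by `r`) if it is fixed by an open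
subgroup, that is, killed by the Lie algebra. -/
def IsTate (𝔤 : Set (Mt K g)) {ι : Type} {r : ℕ} (f : Coh K g ι (Fin (2 * r))) : Prop :=
  ∀ X ∈ 𝔤, ∀ c : K, Xᵀ * Om g K + Om g K * X = c • Om g K → ∀ v : Fin (2 * r) → ι → VV K g,
    ∑ k, f (Function.update v k fun i => X *ᵥ v k i) = (r : K) * c * f v

/-- A system of classes on the powers `A ^ ι` of `A` (`A ι κ f` says that the class `f` of degree `κ` on
`A ^ ι` belongs to the system), with the formal properties of the system of the algebraic classes: it
contains the classes of degree zero and the Tate classes of degree two, and is stable under linear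
combinations, cup products, pull-backs along the homomorphisms given by integer matrices and
push-forwards along the projections `A ^ (ι ⊕ ι') → A ^ ι`. -/
structure TSys (K : Type) [Field K] (g : ℕ) (𝔤 : Set (Mt K g)) where
  /-- the classes of the system -/
  A : (ι κ : Type) → Coh K g ι κ → Prop
  /-- classes of degree zero -/
  unit : ∀ {ι κ : Type} [IsEmpty κ] (f : Coh K g ι κ), A ι κ f
  /-- Tate classes of degree two -/
  divisor : ∀ {ι : Type} [Fintype ι] (f : Coh K g ι (Fin (2 * 1))), IsTate 𝔤 f →
    A ι (Fin (2 * 1)) f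
  zero : ∀ (ι κ : Type), A ι κ 0
  add : ∀ {ι κ : Type} (f f' : Coh K g ι κ), A ι κ f → A ι κ f' → A ι κ (f + f')
  smul : ∀ {ι κ : Type} (a : K) (f : Coh K g ι κ), A ι κ f → A ι κ (a • f)
  /-- renaming of the variables -/
  reindex : ∀ {ι κ κ' : Type} (e : κ ≃ κ') (f : Coh K g ι κ), A ι κ f → A ι κ' (f.domDomCongr e)
  /-- cup products -/
  cup : ∀ {ι κ κ' : Type} [Fintype κ] [DecidableEq κ] [Fintype κ'] [DecidableEq κ']
    (f : Coh K g ι κ) (f' : Coh K g ι κ'), A ι κ f → A ι κ' f' →
    ∀ h : Coh K g ι (κ ⊕ κ'), IsCup f f' h → A ι (κ ⊕ κ') h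
  /-- pull-backs -/
  pull : ∀ {ι ι' : Type} [Fintype ι] [Fintype ι'] (M : Matrix ι ι' ℤ) {κ : Type}
    (f : Coh K g ι κ), A ι κ f → A ι' κ (f.compLinearMap (homM M))
  /-- push-forwards -/
  push : ∀ {ι ι' : Type} [Fintype ι] [Fintype ι'] {κ κ' : Type} (b : Basis κ' K (ι' → VV K g))
    (f : Coh K g (ι ⊕ ι') (κ ⊕ κ')), A (ι ⊕ ι') (κ ⊕ κ') f →
    ∀ f' : Coh K g ι κ, IsPush b f f' → A ι κ f'

end Pool.Agent.H841.TT
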