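import Pool.Agent.H841.TT.Ring
import Pool.Agent.H841.GP.Core

/-!
# The tensors with alternations in the system
-/

set_option linter.unusedSectionVars false

namespace Pool.Agent.H841.TT

open Finset Matrix Module Pool.Agent.W437.HC Pool.Agent.H841.MS Pool.Agent.H841.GP
open Pool.Agent.V1168.GH hiding cj sw ctr
open Equiv (Perm)

noncomputable section

variable {K : Type} [Field K] [Algebra K ℂ] {g : ℕ} {𝔤 : Set (Mt K g)}

/-- Complex vectors. -/
def cc : VV K g →ₗ[K] (Fin g ⊕ Fin g → ℂ) where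
  toFun x b := algebraMap K ℂ (x b)
  map_add' x y := by
    funext b
    rw [Pi.add_apply, Pi.add_apply, map_add]
  map_smul' a x := by
    funext b
    rw [Pi.smul_apply, smul_eq_mul, map_mul, RingHom.id_apply, Pi.smul_apply, Algebra.smul_def]

theorem cc_apply (x : VV K g) (b : Fin g ⊕ Fin g) : cc x b = algebraMap K ℂ (x b) := rfl

theorem cc_mulVec (X : Mt K g) (x : VV K g) : cc (X *ᵥ x) = X.map (algebraMap K ℂ) *ᵥ cc x := by
  funext b
  rw [cc_apply]
  unfold Matrix.mulVec dotProduct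
  rw [map_sum]
  refine Finset.sum_congr rfl fun j _ => ?_
  rw [map_mul]
  rfl

theorem cc_single (b : Fin g ⊕ Fin g) :
    cc (Pi.single b 1 : VV K g) = (Pi.single b 1 : Fin g ⊕ Fin g → ℂ) := by
  funext j
  rw [cc_apply]
  by_cases hj : j = b
  · subst hj
    rw [Pi.single_eq_same, Pi.single_eq_same, map_one]
  · rw [Pi.single_eq_of_ne hj, Pi.single_eq_of_ne hj, map_zero]

/-- The homomorphisms `A ^ ι → A`. -/
def homR {ι : Type} [Fintype ι] (m : ι → ℤ) : (ι → VV K g) →ₗ[K] VV K g :=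
  ∑ i, (m i : K) • LinearMap.proj i

theorem homR_apply {ι : Type} [Fintype ι] (m : ι → ℤ) (v : ι → VV K g) :
    homR m v = ∑ i, (m i : K) • v i := by
  unfold homR
  rw [LinearMap.sum_apply]
  rfl

theorem homR_add {ι : Type} [Fintype ι] (m m' : ι → ℤ) :
    homR (K := K) (g := g) (m + m') = homR m + homR m' := by
  unfold homR
  rw [← Finset.sum_add_distrib]
  refine Finset.sum_congr rfl fun i _ => ?_
  rw [Pi.add_apply, Int.cast_add, add_smul]

theorem homR_act {ι : Type} [Fintype ι] (m : ι → ℤ) (X : Mt K g) (v : ι → VV K g) :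
    homR m (fun i => X *ᵥ v i) = X *ᵥ homR m v := by
  rw [homR_apply, homR_apply, Matrix.mulVec_sum]
  refine Finset.sum_congr rfl fun i _ => ?_
  rw [Matrix.mulVec_smul]

theorem homR_homM {ι Q : Type} [Fintype ι] [Fintype Q] [DecidableEq Q] (M : Matrix Q ι ℤ) (q : Q)
    (v : ι → VV K g) : homR (Pi.single q 1) (homM M v) = homR (M q) v := by
  rw [homR_apply, Finset.sum_eq_single q, Pi.single_eq_same, Int.cast_one, one_smul]
  · unfold homM homR
    rw [LinearMap.pi_apply]
  · intro q' _ hq'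
    rw [Pi.single_eq_of_ne hq', Int.cast_zero, zero_smul]
  · intro h0
    exact absurd (Finset.mem_univ _) h0

/-- The alternation of the pull-back of a tensor. -/
def gT {ι κ : Type} [Fintype κ] [DecidableEq κ] (R : κ → (ι → VV K g) →ₗ[K] VV K g)
    (u : Tn κ (Fin g ⊕ Fin g)) (v : κ → ι → VV K g) : ℂ :=
  ∑ σ : Perm κ, ((Perm.sign σ : ℤ) : ℂ) * evalF u (fun k => cc (R k (v (σ k))))

section basic

variable {ι κ : Type} [Fintype κ] [DecidableEq κ]

theorem gT_add (R : κ → (ι → VV K g) →ₗ[K] VV K g) (u w : Tn κ (Fin g ⊕ Fin g)) :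
    gT R (u + w) = gT R u + gT R w := by
  funext v
  rw [Pi.add_apply]
  unfold gT
  rw [← Finset.sum_add_distrib]
  refine Finset.sum_congr rfl fun σ _ => ?_
  rw [evalF_add, mul_add]

theorem gT_smul (R : κ → (ι → VV K g) →ₗ[K] VV K g) (a : ℂ) (u : Tn κ (Fin g ⊕ Fin g)) :
    gT R (a • u) = a • gT R u := by
  funext v
  rw [Pi.smul_apply, smul_eq_mul]
  unfold gT
  rw [Finset.mul_sum]
  refine Finset.sum_congr rfl fun σ _ => ?_
  rw [evalF_smul]
  ring

/-- `gT` as a linear map. -/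
def gTL (R : κ → (ι → VV K g) →ₗ[K] VV K g) :
    Tn κ (Fin g ⊕ Fin g) →ₗ[ℂ] ((κ → ι → VV K g) → ℂ) where
  toFun := gT R
  map_add' := gT_add R
  map_smul' := gT_smul R

/-- The multilinear map before the alternation. -/
def preT (R : κ → (ι → VV K g) →ₗ[K] VV K g) (u : Tn κ (Fin g ⊕ Fin g)) :
    MultilinearMap K (fun _ : κ => ι → VV K g) ℂ :=
  ((evalM u).restrictScalars K).compLinearMap fun k => cc.comp (R k)

theorem preT_apply (R : κ → (ι → VV K g) →ₗ[K] VV K g) (u : Tn κ (Fin g ⊕ Fin g))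
    (v : κ → ι → VV K g) : preT R u v = evalF u fun k => cc (R k (v k)) := rfl

theorem gT_eq (R : κ → (ι → VV K g) →ₗ[K] VV K g) (u : Tn κ (Fin g ⊕ Fin g)) :
    gT R u = (MultilinearMap.alternatization (preT R u) : (κ → ι → VV K g) → ℂ) := by
  funext v
  rw [MultilinearMap.alternatization_apply]
  refine Finset.sum_congr rfl fun σ _ => ?_
  rw [MultilinearMap.domDomCongr_apply, preT_apply, Units.smul_def, zsmul_eq_mul]

theorem act_one_eq (u : Tn κ (Fin g ⊕ Fin g)) :
    act (1 : Matrix (Fin g ⊕ Fin g) (Fin g ⊕ Fin g) ℂ) u = (Fintype.card κ : ℂ) • u := by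
  rw [← ac_apply]
  unfold ac
  rw [LinearMap.sum_apply]
  have h1 : ∀ k : κ, (sl (1 : Matrix (Fin g ⊕ Fin g) (Fin g ⊕ Fin g) ℂ) k : OpT κ _) u = u := by
    intro k
    rw [sl_one]
    rfl
  rw [Finset.sum_congr rfl fun k _ => h1 k, Finset.sum_const, Finset.card_univ,
    ← Nat.cast_smul_eq_nsmul ℂ]

end basic

/-- The complex Lie algebra: the span of the matrices `X - c / 2`, where `X` belongs to `𝔤` and `c` is
the multiplier of `X`. -/
def LL (𝔤 : Set (Mt K g)) : Submodule ℂ (Matrix (Fin g ⊕ Fin g) (Fin g ⊕ Fin g) ℂ) :=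
  Submodule.span ℂ {Y | ∃ X ∈ 𝔤, ∃ c : K, Xᵀ * Om g K + Om g K * X = c • Om g K ∧
    Y = X.map (algebraMap K ℂ) - (algebraMap K ℂ c / 2) • 1}

theorem map_Om : (Om g K).map (algebraMap K ℂ) = Om g ℂ := by
  ext a b
  rw [Matrix.map_apply]
  rcases a with a | a <;> rcases b with b | b
  · simp [Om]
  · simp [Om, Matrix.one_apply]
  · simp [Om, Matrix.one_apply]
  · simp [Om]

theorem LL_sp : ∀ Y ∈ LL 𝔤, Yᵀ * Om g ℂ + Om g ℂ * Y = 0 := by
  intro Y hY
  unfold LL at hY
  induction hY using Submodule.span_induction with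
  | mem Y hY =>
    obtain ⟨X, -, c, hc, rfl⟩ := hY
    have h1 := congrArg (fun M : Mt K g => M.map (algebraMap K ℂ)) hc
    beta_reduce at h1
    rw [Matrix.map_add _ (map_add _), Matrix.map_mul, Matrix.map_mul, map_Om, Matrix.transpose_map] at h1
    have h2 : (c • Om g K).map (algebraMap K ℂ) = algebraMap K ℂ c • Om g ℂ := by
      ext a b
      rw [Matrix.map_apply, Matrix.smul_apply, Matrix.smul_apply, smul_eq_mul, map_mul, smul_eq_mul,
        ← map_Om (K := K), Matrix.map_apply]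
    rw [h2] at h1
    rw [Matrix.transpose_sub, Matrix.transpose_smul, Matrix.transpose_one, Matrix.sub_mul,
      Matrix.mul_sub, Matrix.smul_mul, Matrix.mul_smul, Matrix.one_mul, Matrix.mul_one]
    have h3 : (X.map (algebraMap K ℂ))ᵀ * Om g ℂ - (algebraMap K ℂ c / 2) • Om g ℂ +
        (Om g ℂ * X.map (algebraMap K ℂ) - (algebraMap K ℂ c / 2) • Om g ℂ) =
        ((X.map (algebraMap K ℂ))ᵀ * Om g ℂ + Om g ℂ * X.map (algebraMap K ℂ)) -
          ((algebraMap K ℂ c / 2) • Om g ℂ + (algebraMap K ℂ c / 2) • Om g ℂ) := by abel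
    rw [h3, h1, ← add_smul, add_halves, sub_self]
  | zero => simp
  | add X Y _ _ hX hY =>
    rw [Matrix.transpose_add, Matrix.add_mul, Matrix.mul_add]
    have h3 : Xᵀ * Om g ℂ + Yᵀ * Om g ℂ + (Om g ℂ * X + Om g ℂ * Y) =
        (Xᵀ * Om g ℂ + Om g ℂ * X) + (Yᵀ * Om g ℂ + Om g ℂ * Y) := by abel
    rw [h3, hX, hY, add_zero]
  | smul a X _ hX =>
    rw [Matrix.transpose_smul, Matrix.smul_mul, Matrix.mul_smul, ← smul_add, hX, smul_zero]

/-- The pull-backs of invariant tensors belong to the system if the Tate classes on the power do. -/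
theorem gT_mem0 (𝒜 : TSys K g 𝔤) {ι : Type} [Fintype ι] {r : ℕ}
    (hall : ∀ f : (ι → VV K g) [⋀^Fin (2 * r)]→ₗ[K] K, IsTate 𝔤 f → 𝒜.A ι (Fin (2 * r)) f)
    {u : Tn (Fin (2 * r)) (Fin g ⊕ Fin g)} (hu : u ∈ Ivl (LL 𝔤) (Fin (2 * r)))
    (m : Fin (2 * r) → ι → ℤ) : gT (fun k => homR (m k)) u ∈ RT 𝒜 ι (Fin (2 * r)) := by
  rw [gT_eq]
  refine RT_of_tate 𝒜 hall _ fun X hX c hc v => ?_
  have h1 : act (X.map (algebraMap K ℂ)) u = ((r : ℂ) * algebraMap K ℂ c) • u := by
    have h2 := hu (X.map (algebraMap K ℂ) - (algebraMap K ℂ c / 2) • 1)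
      (Submodule.subset_span ⟨X, hX, c, hc, rfl⟩)
    rw [act_sub_left, act_smul_left, act_one_eq, smul_smul, sub_eq_zero] at h2
    rw [h2, Fintype.card_fin]
    congr 1
    push_cast
    ring
  have h3 : ∀ w : Fin (2 * r) → ι → VV K g,
      ∑ k, preT (fun k => homR (m k)) u (Function.update w k fun i => X *ᵥ w k i) =
      ((r : ℂ) * algebraMap K ℂ c) * preT (fun k => homR (m k)) u w := by
    intro w
    have h4 := evalF_act (X.map (algebraMap K ℂ)) u fun k => cc (homR (m k) (w k))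
    rw [h1, evalF_smul] at h4
    rw [preT_apply, h4]
    refine Finset.sum_congr rfl fun k _ => ?_
    rw [preT_apply]
    congr 1
    funext k'
    by_cases hk : k' = k
    · subst hk
      rw [Function.update_self, Function.update_self, homR_act, cc_mulVec]
    · rw [Function.update_of_ne hk, Function.update_of_ne hk]
  simp only [MultilinearMap.alternatization_apply, MultilinearMap.domDomCongr_apply]
  rw [Finset.sum_comm, Finset.smul_sum]
  refine Finset.sum_congr rfl fun σ _ => ?_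
  rw [← Finset.smul_sum, smul_comm]
  congr 1
  have h5 : ∀ k, (fun i => Function.update v k (fun i => X *ᵥ v k i) (σ i)) =
      Function.update (fun i => v (σ i)) (σ.symm k) (fun i => X *ᵥ v (σ (σ.symm k)) i) := by
    intro k
    funext l
    by_cases hl : l = σ.symm k
    · subst hl
      rw [Function.update_self, Equiv.apply_symm_apply, Function.update_self]
    · rw [Function.update_of_ne hl, Function.update_of_ne fun h => hl (by rw [← h, Equiv.symm_apply_apply])]
  rw [Finset.sum_congr rfl fun k _ => congrArg _ (h5 k),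
    Equiv.sum_comp σ.symm (fun k => preT (fun k => homR (m k)) u
      (Function.update (fun i => v (σ i)) k fun i => X *ᵥ v (σ k) i)), h3, Algebra.smul_def,
    map_mul, map_natCast]

theorem gT_rnm {ι κ κ' : Type} [Fintype κ] [DecidableEq κ] [Fintype κ'] [DecidableEq κ'] (e : κ ≃ κ')
    (R : κ' → (ι → VV K g) →ₗ[K] VV K g) (u : Tn κ (Fin g ⊕ Fin g)) :
    gT R (rnm e u) = fun v => gT (fun k => R (e k)) u fun k => v (e k) := by
  funext v
  unfold gT
  rw [← Equiv.sum_comp (Equiv.permCongr e)]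
  refine Finset.sum_congr rfl fun σ _ => ?_
  rw [Equiv.Perm.sign_permCongr, MS.evalF_rnm]
  congr 2
  funext k
  simp only [Function.comp_apply, Equiv.permCongr_apply, Equiv.symm_apply_apply]

/-- The pull-backs of invariant tensors belong to the system if the Tate classes on a power do. -/
theorem gT_mem (𝒜 : TSys K g 𝔤) {κ Q ι : Type} [Fintype κ] [DecidableEq κ] [Fintype Q]
    [DecidableEq Q] [Fintype ι] {r : ℕ} (hr : Fintype.card κ = 2 * r) (p : κ → Q)
    (hall : ∀ f : (Q → VV K g) [⋀^Fin (2 * r)]→ₗ[K] K, IsTate 𝔤 f → 𝒜.A Q (Fin (2 * r)) f)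
    {u : Tn κ (Fin g ⊕ Fin g)} (hu : u ∈ Ivl (LL 𝔤) κ) (M : Matrix Q ι ℤ) :
    gT (fun k => homR (M (p k))) u ∈ RT 𝒜 ι κ := by
  let e : κ ≃ Fin (2 * r) := Fintype.equivFinOfCardEq hr
  have h1 : rnm e u ∈ Ivl (LL 𝔤) (Fin (2 * r)) := rnm_Ivl e hu
  have h2 := gT_mem0 𝒜 hall h1 fun k => Pi.single (p (e.symm k)) 1
  have h3 := RT_reindex e.symm (RT_pull M h2)
  have h4 : (fun v : κ → ι → VV K g => gT (fun k => homR (Pi.single (p (e.symm k)) (1 : ℤ))) (rnm e u)
      fun k => homM M (v (e.symm k))) = gT (fun k => homR (M (p k))) u := by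
    funext v
    rw [gT_rnm]
    unfold gT
    refine Finset.sum_congr rfl fun σ _ => ?_
    congr 2
    funext k
    change cc (homR (Pi.single (p (e.symm (e k))) 1) (homM M (v (e.symm (e (σ k)))))) = _
    rw [Equiv.symm_apply_apply, Equiv.symm_apply_apply, homR_homM]
  rw [← h4]
  exact h3

/-- The tensors with alternations in the system. -/
def TF (𝒜 : TSys K g 𝔤) (κ : Type) : Submodule ℂ (Tn κ (Fin g ⊕ Fin g)) where
  carrier := {u | ∀ (_ : Fintype κ) (_ : DecidableEq κ) (ι : Type) (_ : Fintype ι)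
    (m : κ → ι → ℤ), gT (fun k => homR (K := K) (m k)) u ∈ RT 𝒜 ι κ}
  add_mem' := by
    intro u w hu hw i1 i2 ι i3 m
    rw [gT_add]
    exact Submodule.add_mem _ (hu i1 i2 ι i3 m) (hw i1 i2 ι i3 m)
  zero_mem' := by
    intro i1 i2 ι i3 m
    have h1 := map_zero (gTL fun k => homR (K := K) (g := g) (m k))
    change gT _ 0 = 0 at h1
    rw [h1]
    exact Submodule.zero_mem _
  smul_mem' := by
    intro a u hu i1 i2 ι i3 m
    rw [gT_smul]
    exact Submodule.smul_mem _ _ (hu i1 i2 ι i3 m)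

variable {𝒜 : TSys K g 𝔤}

theorem TF_unit (κ : Type) [IsEmpty κ] (u : Tn κ (Fin g ⊕ Fin g)) : u ∈ TF 𝒜 κ := by
  intro i1 i2 ι i3 m
  have h1 : gT (fun k => homR (K := K) (m k)) u = evalF u (fun k => isEmptyElim k) •
      (fun _ : κ → ι → VV K g => algebraMap K ℂ 1) := by
    funext v
    unfold gT
    rw [Fintype.sum_unique, Pi.smul_apply, smul_eq_mul]
    have h2 : (fun k => cc (homR (K := K) (m k) (v ((default : Equiv.Perm κ) k)))) =
        fun k => isEmptyElim k := by
      funext k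
      exact isEmptyElim k
    rw [h2, Subsingleton.elim (default : Equiv.Perm κ) 1, Equiv.Perm.sign_one, map_one]
    push_cast
    ring
  rw [h1]
  refine Submodule.smul_mem _ _ ?_
  exact RT_of (𝒜.unit (AlternatingMap.constOfIsEmpty K (ι → VV K g) κ 1))

theorem TF_rnm {κ κ' : Type} (e : κ ≃ κ') (u : Tn κ (Fin g ⊕ Fin g)) (hu : u ∈ TF 𝒜 κ) :
    rnm e u ∈ TF 𝒜 κ' := by
  intro i1 i2 ι i3 m
  let j1 : Fintype κ := Fintype.ofEquiv κ' e.symm
  let j2 : DecidableEq κ := e.decidableEq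
  have h1 := RT_reindex e (hu j1 j2 ι i3 fun k => m (e k))
  rw [gT_rnm]
  exact h1

theorem TF_prd {κ κ' : Type} [Fintype κ] [DecidableEq κ] [Fintype κ'] [DecidableEq κ']
    (u : Tn κ (Fin g ⊕ Fin g)) (w : Tn κ' (Fin g ⊕ Fin g)) (hu : u ∈ TF 𝒜 κ)
    (hw : w ∈ TF 𝒜 κ') : prd u w ∈ TF 𝒜 (κ ⊕ κ') := by
  intro i1 i2 ι i3 m
  have j1 : i1 = instFintypeSum κ κ' := Subsingleton.elim _ _
  have j2 : i2 = instDecidableEqSum := Subsingleton.elim _ _
  subst j1 j2
  let R : κ ⊕ κ' → (ι → VV K g) →ₗ[K] VV K g := fun k => homR (m k)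
  have h1 := RT_mul (hu inferInstance inferInstance ι i3 fun k => m (Sum.inl k))
    (hw inferInstance inferInstance ι i3 fun k => m (Sum.inr k))
  have h2 : gT R (prd u w) = ((Fintype.card (Equiv.Perm κ) : ℂ) *
      (Fintype.card (Equiv.Perm κ') : ℂ))⁻¹ •
      mulT (gT (fun k => R (Sum.inl k)) u) (gT (fun k => R (Sum.inr k)) w) := by
    funext v
    have e1 : mulT (gT (fun k => R (Sum.inl k)) u) (gT (fun k => R (Sum.inr k)) w) v =
        ((Fintype.card (Equiv.Perm κ) : ℂ) * (Fintype.card (Equiv.Perm κ') : ℂ)) *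
          gT R (prd u w) v := by
      have e2 : mulT (gT (fun k => R (Sum.inl k)) u) (gT (fun k => R (Sum.inr k)) w) v =
          ∑ σ : Equiv.Perm (κ ⊕ κ'), ∑ ρ : Equiv.Perm κ, ∑ ρ' : Equiv.Perm κ',
            ((Equiv.Perm.sign σ : ℤ) : ℂ) * (((Equiv.Perm.sign ρ : ℤ) : ℂ) *
              ((Equiv.Perm.sign ρ' : ℤ) : ℂ)) *
              evalF (prd u w) (Sum.elim (fun k => cc (R (Sum.inl k) (v (σ (Sum.inl (ρ k))))))
                fun k => cc (R (Sum.inr k) (v (σ (Sum.inr (ρ' k)))))) := by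
        unfold mulT gT
        refine Finset.sum_congr rfl fun σ _ => ?_
        rw [Finset.sum_mul_sum, Finset.mul_sum]
        refine Finset.sum_congr rfl fun ρ _ => ?_
        rw [Finset.mul_sum]
        refine Finset.sum_congr rfl fun ρ' _ => ?_
        rw [MS.evalF_prd]
        have e3 : ∀ (x : κ → Fin g ⊕ Fin g → ℂ) (y : κ' → Fin g ⊕ Fin g → ℂ),
            (Sum.elim x y) ∘ Sum.inl = x ∧ (Sum.elim x y) ∘ Sum.inr = y := fun x y => ⟨rfl, rfl⟩
        rw [(e3 _ _).1, (e3 _ _).2]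
        ring
      rw [e2, Finset.sum_comm]
      have e4 : ∀ ρ : Equiv.Perm κ, ∑ σ : Equiv.Perm (κ ⊕ κ'), ∑ ρ' : Equiv.Perm κ',
            ((Equiv.Perm.sign σ : ℤ) : ℂ) * (((Equiv.Perm.sign ρ : ℤ) : ℂ) *
              ((Equiv.Perm.sign ρ' : ℤ) : ℂ)) *
              evalF (prd u w) (Sum.elim (fun k => cc (R (Sum.inl k) (v (σ (Sum.inl (ρ k))))))
                fun k => cc (R (Sum.inr k) (v (σ (Sum.inr (ρ' k)))))) =
          (Fintype.card (Equiv.Perm κ') : ℂ) * gT R (prd u w) v := by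
        intro ρ
        rw [Finset.sum_comm]
        have e5 : ∀ ρ' : Equiv.Perm κ', ∑ σ : Equiv.Perm (κ ⊕ κ'),
            ((Equiv.Perm.sign σ : ℤ) : ℂ) * (((Equiv.Perm.sign ρ : ℤ) : ℂ) *
              ((Equiv.Perm.sign ρ' : ℤ) : ℂ)) *
              evalF (prd u w) (Sum.elim (fun k => cc (R (Sum.inl k) (v (σ (Sum.inl (ρ k))))))
                fun k => cc (R (Sum.inr k) (v (σ (Sum.inr (ρ' k)))))) = gT R (prd u w) v := by
          intro ρ'
          unfold gT
          rw [← Equiv.sum_comp (Equiv.mulRight (Equiv.Perm.sumCongr ρ ρ'))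
            (fun σ : Equiv.Perm (κ ⊕ κ') => ((Equiv.Perm.sign σ : ℤ) : ℂ) *
              evalF (prd u w) (fun k => cc (R k (v (σ k)))))]
          refine Finset.sum_congr rfl fun σ _ => ?_
          have e6 : (Equiv.mulRight (Equiv.Perm.sumCongr ρ ρ')) σ =
            σ * Equiv.Perm.sumCongr ρ ρ' := rfl
          rw [e6, Equiv.Perm.sign_mul, Equiv.Perm.sign_sumCongr]
          push_cast
          congr 2
          funext k
          rcases k with k | k <;> rfl
        rw [Finset.sum_congr rfl fun ρ' _ => e5 ρ', Finset.sum_const, nsmul_eq_mul,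
          Finset.card_univ]
      rw [Finset.sum_congr rfl fun ρ _ => e4 ρ, Finset.sum_const, nsmul_eq_mul, Finset.card_univ]
      ring
    rw [Pi.smul_apply, smul_eq_mul, e1, ← mul_assoc, inv_mul_cancel₀, one_mul]
    refine mul_ne_zero ?_ ?_ <;> exact_mod_cast Fintype.card_ne_zero
  have h3 : gT (fun k => homR (m k)) (prd u w) ∈ RT 𝒜 ι (κ ⊕ κ') := by
    change gT R (prd u w) ∈ _
    rw [h2]
    exact Submodule.smul_mem _ _ h1
  exact h3

theorem TF_Tht (hθ : tht g ∈ TF 𝒜 (Fin 2)) (ι : Type) [Fintype ι] :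
    Tht g ι ∈ TF 𝒜 (ι ⊕ ι) := by
  classical
  have key : ∀ (ι : Type) [Finite ι] (i : Fintype ι), @Tht g ι i ∈ TF 𝒜 (ι ⊕ ι) := by
    intro ι _
    refine Finite.induction_empty_option (P := fun ι => ∀ i : Fintype ι,
      @Tht g ι i ∈ TF 𝒜 (ι ⊕ ι)) ?_ ?_ ?_ ι
    · intro α β e hα iβ
      let iα : Fintype α := Fintype.ofEquiv β e.symm
      have h1 := TF_rnm (Equiv.sumCongr e e) _ (hα iα)
      have h2 : rnm (Equiv.sumCongr e e) (@Tht g α iα) = @Tht g β iβ := by
        funext I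
        unfold rnm Tht
        rw [← e.prod_comp]
        rfl
      rwa [h2] at h1
    · intro i
      exact TF_unit _ _
    · intro α _ hα iO
      have h1 := TF_rnm (renO α) _ (TF_prd _ _ (hα inferInstance) hθ)
      have h2 : rnm (renO α) (prd (Tht g α) (tht g)) = @Tht g (Option α) iO := by
        have j1 : iO = instFintypeOption := Subsingleton.elim _ _
        subst j1
        funext I
        change (∏ t : α, Om g ℂ (I (Sum.inl (some t))) (I (Sum.inr (some t)))) *
          Om g ℂ (I (Sum.inl none)) (I (Sum.inr none)) = ∏ t : Option α, _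
        rw [Fintype.prod_option, mul_comm]
      rwa [h2] at h1
  exact key ι inferInstance

theorem TF_ctr (hθ : tht g ∈ TF 𝒜 (Fin 2)) {κ : Type}
    (u : Tn (κ ⊕ Fin 2) (Fin g ⊕ Fin g)) (hu : u ∈ TF 𝒜 (κ ⊕ Fin 2)) :
    MS.ctr (Om g ℂ) u ∈ TF 𝒜 κ := by
  intro i1 i2 ι i3 m
  rcases Nat.eq_zero_or_pos g with h0 | hpos
  · subst h0
    have h1 : MS.ctr (Om 0 ℂ) u = 0 := by
      funext x
      unfold MS.ctr
      rw [Finset.univ_eq_empty, Finset.sum_empty]
      rfl
    rw [h1]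
    exact (TF 𝒜 κ).zero_mem _ _ ι i3 m
  · let t₀ : Fin g := ⟨0, hpos⟩
    let m' : κ ⊕ (Fin g ⊕ Fin g) → ι ⊕ Unit → ℤ :=
      Sum.elim (fun k => Sum.elim (m k) 0) fun _ => Sum.elim 0 1
    let R : κ → (ι → VV K g) →ₗ[K] VV K g := fun k => homR (m k)
    let R' : κ ⊕ (Fin g ⊕ Fin g) → (ι ⊕ Unit → VV K g) →ₗ[K] VV K g := fun k => homR (m' k)
    have hR1 : ∀ k w w', R' (Sum.inl k) (Sum.elim w w') = R k w := by
      intro k w w'
      change homR (Sum.elim (m k) 0) _ = homR (m k) w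
      rw [homR_apply, homR_apply, Fintype.sum_sum_type]
      have e1 : ∑ x : Unit, (((Sum.elim (m k) 0 : ι ⊕ Unit → ℤ) (Sum.inr x) : ℤ) : K) •
          (Sum.elim w w' : ι ⊕ Unit → VV K g) (Sum.inr x) = 0 := by
        refine Finset.sum_eq_zero fun x _ => ?_
        change ((0 : ℤ) : K) • _ = _
        rw [Int.cast_zero, zero_smul]
      rw [e1, add_zero]
      rfl
    have hR2 : ∀ b w w', R' (Sum.inr b) (Sum.elim w w') = w' () := by
      intro b w w'
      change homR (Sum.elim 0 1) _ = w' ()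
      rw [homR_apply, Fintype.sum_sum_type]
      have e1 : ∑ x : ι, (((Sum.elim 0 1 : ι ⊕ Unit → ℤ) (Sum.inl x) : ℤ) : K) •
          (Sum.elim w w' : ι ⊕ Unit → VV K g) (Sum.inl x) = 0 := by
        refine Finset.sum_eq_zero fun x _ => ?_
        change ((0 : ℤ) : K) • _ = _
        rw [Int.cast_zero, zero_smul]
      rw [e1, zero_add, Fintype.sum_unique]
      change ((1 : ℤ) : K) • w' () = _
      rw [Int.cast_one, one_smul]
    have hW := TF_rnm ((Equiv.sumAssoc κ (Fin 2) _).trans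
      (Equiv.sumCongr (Equiv.refl κ) (renC t₀))) _
      (TF_prd _ _ hu (TF_Tht hθ {t : Fin g // t ≠ t₀})) inferInstance inferInstance
      (ι ⊕ Unit) inferInstance m'
    rw [W_eq] at hW
    let bas : Basis (Fin g ⊕ Fin g) K (Unit → VV K g) :=
      (Pi.basisFun K (Fin g ⊕ Fin g)).map (LinearEquiv.funUnique Unit K (VV K g)).symm
    have hbas : ∀ k, bas k = fun _ => Pi.single k 1 := by
      intro k
      funext x
      change (LinearEquiv.funUnique Unit K (VV K g)).symm (Pi.basisFun K (Fin g ⊕ Fin g) k) x = _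
      rw [Pi.basisFun_apply]
      rfl
    have h2 := RT_push bas hW
    obtain ⟨c, hc, hcomb⟩ := comb t₀
    have h3 : gT R (MS.ctr (Om g ℂ) u) = c⁻¹ • fun v : κ → ι → VV K g =>
        gT R' (∑ a, ∑ b, prd (slc a b u) (Zab t₀ a b))
          (Sum.elim (fun k => Sum.elim (v k) 0) fun k => Sum.elim 0 (bas k)) := by
      funext v
      rw [Pi.smul_apply, smul_eq_mul]
      have e1 : ∀ a b, gT R' (prd (slc a b u) (Zab t₀ a b))
          (Sum.elim (fun k => Sum.elim (v k) 0) fun k => Sum.elim 0 (bas k)) =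
          gT R (slc a b u) v * (c * Om g ℂ a b) := by
        intro a b
        rw [← hcomb]
        unfold gT
        refine perm_split _ _ _ (fun σ k l hkl => ?_) fun ρ ρ' => ?_
        · refine MS.evalF_zero_arg _ _ (Sum.inl k) ?_
          beta_reduce
          rw [hkl]
          change cc (R' (Sum.inl k) (Sum.elim 0 (bas l))) = 0
          rw [hR1, map_zero, map_zero]
        · rw [MS.evalF_prd]
          congr 1
          · congr 1
            funext k
            change cc (R' (Sum.inl k) (Sum.elim (v (ρ k)) 0)) = _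
            rw [hR1]
          · refine Eq.trans ?_ (MS.evalF_single (Zab t₀ a b) ρ')
            congr 1
            funext k
            change cc (R' (Sum.inr k) (Sum.elim 0 (bas (ρ' k)))) = _
            rw [hR2, hbas, cc_single]
      have e2 : gT R' (∑ a, ∑ b, prd (slc a b u) (Zab t₀ a b)) =
          ∑ a, ∑ b, gT R' (prd (slc a b u) (Zab t₀ a b)) := by
        change gTL R' _ = ∑ a, ∑ b, gTL R' _
        rw [map_sum]
        exact Finset.sum_congr rfl fun a _ => map_sum _ _ _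
      have e3 : gT R (MS.ctr (Om g ℂ) u) = ∑ a, ∑ b, Om g ℂ a b • gT R (slc a b u) := by
        rw [ctr_eq]
        change gTL R _ = ∑ a, ∑ b, _ • gTL R _
        rw [map_sum]
        refine Finset.sum_congr rfl fun a _ => ?_
        rw [map_sum]
        exact Finset.sum_congr rfl fun b _ => map_smul _ _ _
      rw [e2, e3, Finset.sum_apply, Finset.sum_apply, Finset.mul_sum]
      refine Finset.sum_congr rfl fun a _ => ?_
      rw [Finset.sum_apply, Finset.sum_apply, Finset.mul_sum]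
      refine Finset.sum_congr rfl fun b _ => ?_
      rw [e1, Pi.smul_apply, smul_eq_mul]
      field_simp
    change gT R (MS.ctr (Om g ℂ) u) ∈ _
    rw [h3]
    exact Submodule.smul_mem _ _ h2

end

end Pool.Agent.H841.TT
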