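import Pool.Agent.H841.TT.Fam
import Pool.Agent.H841.GP.Polar
import Pool.Agent.H841.MS.Hall

/-!
# The Tate conjecture for the powers from the classes of degree four on the square
-/

set_option linter.unusedSectionVars false

namespace Pool.Agent.H841.TT

open Finset Matrix Module Pool.Agent.W437.HC Pool.Agent.H841.MS Pool.Agent.H841.GP
open Pool.Agent.V1168.GH hiding cj sw ctr
open Equiv (Perm)

noncomputable section

variable {K : Type} [Field K] [Algebra K ℂ] {g : ℕ} {𝔤 : Set (Mt K g)} {𝒜 : TSys K g 𝔤}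

section multi

variable {ι κ : Type} [Fintype ι] [Fintype κ] [dk : DecidableEq κ]

theorem gT_update (u : Tn κ (Fin g ⊕ Fin g)) (m : κ → ι → ℤ) (k : κ) (x y : ι → ℤ) :
    gT (fun l => homR (K := K) (Function.update m k (x + y) l)) u =
      gT (fun l => homR (Function.update m k x l)) u +
        gT (fun l => homR (Function.update m k y l)) u := by
  funext v
  rw [Pi.add_apply]
  unfold gT
  rw [← Finset.sum_add_distrib]
  refine Finset.sum_congr rfl fun σ _ => ?_
  rw [← mul_add]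
  congr 1
  have h1 : ∀ z : ι → ℤ, (fun l => cc (homR (K := K) (g := g) (Function.update m k z l) (v (σ l)))) =
      Function.update (fun l => cc (homR (m l) (v (σ l)))) k (cc (homR z (v (σ k)))) := by
    intro z
    funext l
    by_cases hl : l = k
    · subst hl
      rw [Function.update_self, Function.update_self]
    · rw [Function.update_of_ne hl, Function.update_of_ne hl]
  rw [h1, h1, h1, homR_add, LinearMap.add_apply, map_add, evalF_update_add]

/-- The pull-back of a tensor as a multilinear map. -/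
def gM (u : Tn κ (Fin g ⊕ Fin g)) :
    MultilinearMap ℤ (fun _ : κ => ι → ℤ) ((κ → ι → VV K g) → ℂ) where
  toFun m := gT (fun l => homR (m l)) u
  map_update_add' := by
    intro i m k x y
    obtain rfl : i = dk := Subsingleton.elim _ _
    exact gT_update u m k x y
  map_update_smul' := by
    intro i m k a x
    obtain rfl : i = dk := Subsingleton.elim _ _
    exact map_zsmul (AddMonoidHom.mk' (fun z => gT (fun l => homR (K := K)
      (Function.update m k z l)) u) fun x y => gT_update u m k x y) a x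

theorem gM_apply (u : Tn κ (Fin g ⊕ Fin g)) (m : κ → ι → ℤ) :
    (gM u m : (κ → ι → VV K g) → ℂ) = gT (fun l => homR (m l)) u := rfl

theorem gT_perm (u : Tn κ (Fin g ⊕ Fin g)) (π : Perm κ) (R : κ → (ι → VV K g) →ₗ[K] VV K g) :
    gT (fun k => R (π k)) u = ((Perm.sign π : ℤ) : ℂ) • gT R (rnm π u) := by
  funext v
  rw [Pi.smul_apply, smul_eq_mul]
  unfold gT
  rw [Finset.mul_sum, ← Equiv.sum_comp (Equiv.mulRight π)]
  refine Finset.sum_congr rfl fun σ _ => ?_
  rw [MS.evalF_rnm]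
  have e1 : (Equiv.mulRight π) σ = σ * π := rfl
  rw [e1, Perm.sign_mul]
  have e2 : evalF u ((fun k => cc (R k (v (σ k)))) ∘ π) =
      evalF u fun k => cc (R (π k) (v ((σ * π) k))) := rfl
  rw [e2, ← mul_assoc]
  congr 1
  push_cast
  ring

end multi

/-- Antisymmetric invariant tensors. -/
theorem TF_alt (𝒜 : TSys K g 𝔤) {r : ℕ}
    (hall : ∀ f : (Fin 1 → VV K g) [⋀^Fin (2 * r)]→ₗ[K] K, IsTate 𝔤 f →
      𝒜.A (Fin 1) (Fin (2 * r)) f) (κ : Type) [i0 : Fintype κ] [j0 : DecidableEq κ]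
    (hκ : Fintype.card κ = 2 * r)
    (t : Tn κ (Fin g ⊕ Fin g)) (ht : t ∈ Ivl (LL 𝔤) κ)
    (h1 : ∀ π : Perm κ, rnm π t = ((Perm.sign π : ℤ) : ℂ) • t) : t ∈ TF 𝒜 κ := by
  intro i1 i2 ι i3 m
  obtain rfl : i0 = i1 := Subsingleton.elim _ _
  obtain rfl : j0 = i2 := Subsingleton.elim _ _
  refine polar (gM (K := K) t) (fun π m => ?_) (RT 𝒜 ι κ) (fun x => ?_) m
  · rw [gM_apply, gM_apply]
    have h2 := gT_perm (K := K) t π fun k => homR (m k)
    rw [h1, gT_smul, smul_smul] at h2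
    rw [h2]
    have h3 : ((Perm.sign π : ℤ) : ℂ) * ((Perm.sign π : ℤ) : ℂ) = 1 := by
      rw [← Int.cast_mul, ← Units.val_mul, Int.units_mul_self]
      norm_num
    rw [h3, one_smul]
  · rw [gM_apply]
    exact gT_mem 𝒜 hκ (fun _ => (0 : Fin 1)) hall ht (fun _ => x)

/-- Antisymmetric invariant tensors of degree four. -/
theorem TF_anti (𝒜 : TSys K g 𝔤)
    (hall : ∀ f : (Fin 2 → VV K g) [⋀^Fin (2 * 2)]→ₗ[K] K, IsTate 𝔤 f →
      𝒜.A (Fin 2) (Fin (2 * 2)) f)
    (t : Tn (Fin 2 ⊕ Fin 2) (Fin g ⊕ Fin g)) (ht : t ∈ Ivl (LL 𝔤) (Fin 2 ⊕ Fin 2))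
    (h1 : rnm (Equiv.swap (Sum.inl 0) (Sum.inl 1)) t = -t)
    (h2 : rnm (Equiv.swap (Sum.inr 0) (Sum.inr 1)) t = -t) : t ∈ TF 𝒜 (Fin 2 ⊕ Fin 2) := by
  intro i1 i2 ι i3 m
  have j1 : i1 = instFintypeSum (Fin 2) (Fin 2) := Subsingleton.elim _ _
  have j2 : i2 = instDecidableEqSum := Subsingleton.elim _ _
  subst j1 j2
  let G : (ι → ℤ) → (ι → ℤ) → (ι → ℤ) → (ι → ℤ) → (Fin 2 ⊕ Fin 2 → ι → VV K g) → ℂ :=
    fun a a' b b' => gM t (Sum.elim ![a, a'] ![b, b'])
  have hG : ∀ a b, G a a b b ∈ RT 𝒜 ι (Fin 2 ⊕ Fin 2) := by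
    intro a b
    have h3 := gT_mem 𝒜 (κ := Fin 2 ⊕ Fin 2) (r := 2) (by simp)
      (Sum.elim (fun _ => 0) fun _ => 1 : Fin 2 ⊕ Fin 2 → Fin 2) hall ht (![a, b] : Matrix (Fin 2) ι ℤ)
    have h4 : (fun k => (![a, b] : Fin 2 → _) ((Sum.elim (fun _ => 0) fun _ => 1 :
        Fin 2 ⊕ Fin 2 → Fin 2) k)) = Sum.elim ![a, a] ![b, b] := by
      funext k
      rcases k with k | k <;> fin_cases k <;> rfl
    change gT (fun k => homR ((fun k => (![a, b] : Fin 2 → _) ((Sum.elim (fun _ => 0) fun _ => 1 :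
        Fin 2 ⊕ Fin 2 → Fin 2) k)) k)) t ∈ _ at h3
    rw [h4] at h3
    exact h3
  have s1 : ∀ a a' b b', G a' a b b' = G a a' b b' := by
    intro a a' b b'
    have h3 := gT_perm (K := K) t (Equiv.swap (Sum.inl 0) (Sum.inl 1))
      fun k => homR ((Sum.elim ![a, a'] ![b, b'] : Fin 2 ⊕ Fin 2 → ι → ℤ) k)
    rw [h1, Perm.sign_swap (by simp)] at h3
    have h4 : (fun k => (Sum.elim ![a, a'] ![b, b'] : Fin 2 ⊕ Fin 2 → ι → ℤ)
        ((Equiv.swap (Sum.inl 0) (Sum.inl 1) : Perm (Fin 2 ⊕ Fin 2)) k)) =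
        Sum.elim ![a', a] ![b, b'] := by
      funext k
      rcases k with k | k
      · fin_cases k
        · change (Sum.elim ![a, a'] ![b, b'] : Fin 2 ⊕ Fin 2 → _)
            ((Equiv.swap (Sum.inl 0) (Sum.inl 1) : Perm (Fin 2 ⊕ Fin 2)) (Sum.inl 0)) = _
          rw [Equiv.swap_apply_left]
          rfl
        · change (Sum.elim ![a, a'] ![b, b'] : Fin 2 ⊕ Fin 2 → _)
            ((Equiv.swap (Sum.inl 0) (Sum.inl 1) : Perm (Fin 2 ⊕ Fin 2)) (Sum.inl 1)) = _
          rw [Equiv.swap_apply_right]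
          rfl
      · rw [Equiv.swap_apply_of_ne_of_ne (by simp) (by simp)]
        rfl
    change gT (fun k => homR ((fun k => (Sum.elim ![a, a'] ![b, b'] : Fin 2 ⊕ Fin 2 → ι → ℤ)
        ((Equiv.swap (Sum.inl 0) (Sum.inl 1) : Perm (Fin 2 ⊕ Fin 2)) k)) k)) t = _ at h3
    rw [h4] at h3
    change gT _ t = gT _ t
    rw [h3, show -t = (-1 : ℂ) • t from (neg_one_smul ℂ t).symm, gT_smul, smul_smul]
    norm_num
  have s2 : ∀ a a' b b', G a a' b' b = G a a' b b' := by
    intro a a' b b'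
    have h3 := gT_perm (K := K) t (Equiv.swap (Sum.inr 0) (Sum.inr 1))
      fun k => homR ((Sum.elim ![a, a'] ![b, b'] : Fin 2 ⊕ Fin 2 → ι → ℤ) k)
    rw [h2, Perm.sign_swap (by simp)] at h3
    have h4 : (fun k => (Sum.elim ![a, a'] ![b, b'] : Fin 2 ⊕ Fin 2 → ι → ℤ)
        ((Equiv.swap (Sum.inr 0) (Sum.inr 1) : Perm (Fin 2 ⊕ Fin 2)) k)) =
        Sum.elim ![a, a'] ![b', b] := by
      funext k
      rcases k with k | k
      · rw [Equiv.swap_apply_of_ne_of_ne (by simp) (by simp)]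
        rfl
      · fin_cases k
        · change (Sum.elim ![a, a'] ![b, b'] : Fin 2 ⊕ Fin 2 → _)
            ((Equiv.swap (Sum.inr 0) (Sum.inr 1) : Perm (Fin 2 ⊕ Fin 2)) (Sum.inr 0)) = _
          rw [Equiv.swap_apply_left]
          rfl
        · change (Sum.elim ![a, a'] ![b, b'] : Fin 2 ⊕ Fin 2 → _)
            ((Equiv.swap (Sum.inr 0) (Sum.inr 1) : Perm (Fin 2 ⊕ Fin 2)) (Sum.inr 1)) = _
          rw [Equiv.swap_apply_right]
          rfl
    change gT (fun k => homR ((fun k => (Sum.elim ![a, a'] ![b, b'] : Fin 2 ⊕ Fin 2 → ι → ℤ)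
        ((Equiv.swap (Sum.inr 0) (Sum.inr 1) : Perm (Fin 2 ⊕ Fin 2)) k)) k)) t = _ at h3
    rw [h4] at h3
    change gT _ t = gT _ t
    rw [h3, show -t = (-1 : ℂ) • t from (neg_one_smul ℂ t).symm, gT_smul, smul_smul]
    norm_num
  have a1 : ∀ a₁ a₂ a' b b', G (a₁ + a₂) a' b b' = G a₁ a' b b' + G a₂ a' b b' := by
    intro a₁ a₂ a' b b'
    have h3 := (gM (K := K) t).map_update_add (Sum.elim ![a₁, a'] ![b, b']) (Sum.inl 0) a₁ a₂
    have h4 : ∀ z : ι → ℤ, Function.update (Sum.elim ![a₁, a'] ![b, b'] : Fin 2 ⊕ Fin 2 → ι → ℤ)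
        (Sum.inl 0) z = Sum.elim ![z, a'] ![b, b'] := by
      intro z
      funext k
      rcases k with k | k
      · fin_cases k
        · exact Function.update_self _ _ _
        · exact Function.update_of_ne (by simp) _ _
      · exact Function.update_of_ne (by simp) _ _
    rw [h4, h4, h4] at h3
    exact h3
  have a2 : ∀ a a' b₁ b₂ b', G a a' (b₁ + b₂) b' = G a a' b₁ b' + G a a' b₂ b' := by
    intro a a' b₁ b₂ b'
    have h3 := (gM (K := K) t).map_update_add (Sum.elim ![a, a'] ![b₁, b']) (Sum.inr 0) b₁ b₂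
    have h4 : ∀ z : ι → ℤ, Function.update (Sum.elim ![a, a'] ![b₁, b'] : Fin 2 ⊕ Fin 2 → ι → ℤ)
        (Sum.inr 0) z = Sum.elim ![a, a'] ![z, b'] := by
      intro z
      funext k
      rcases k with k | k
      · exact Function.update_of_ne (by simp) _ _
      · fin_cases k
        · exact Function.update_self _ _ _
        · exact Function.update_of_ne (by simp) _ _
    rw [h4, h4, h4] at h3
    exact h3
  have p1 : ∀ a a' b, G a a' b b ∈ RT 𝒜 ι (Fin 2 ⊕ Fin 2) := by
    intro a a' b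
    have h3 : G a a' b b = (2 : ℂ)⁻¹ • (G (a + a') (a + a') b b - G a a b b - G a' a' b b) := by
      rw [a1, s1 (a + a') a, s1 (a + a') a', a1, a1, s1 a a', eq_inv_smul_iff₀ two_ne_zero,
        two_smul]
      abel
    rw [h3]
    exact Submodule.smul_mem _ _ (Submodule.sub_mem _ (Submodule.sub_mem _
      (hG _ _) (hG _ _)) (hG _ _))
  have p2 : ∀ a a' b b', G a a' b b' ∈ RT 𝒜 ι (Fin 2 ⊕ Fin 2) := by
    intro a a' b b'
    have h3 : G a a' b b' = (2 : ℂ)⁻¹ • (G a a' (b + b') (b + b') - G a a' b b - G a a' b' b') := by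
      rw [a2, s2 a a' (b + b') b, s2 a a' (b + b') b', a2, a2, s2 a a' b b',
        eq_inv_smul_iff₀ two_ne_zero, two_smul]
      abel
    rw [h3]
    exact Submodule.smul_mem _ _ (Submodule.sub_mem _ (Submodule.sub_mem _
      (p1 _ _ _) (p1 _ _ _)) (p1 _ _ _))
  have h5 : m = Sum.elim ![m (Sum.inl 0), m (Sum.inl 1)] ![m (Sum.inr 0), m (Sum.inr 1)] := by
    funext k
    rcases k with k | k <;> fin_cases k <;> rfl
  rw [h5]
  exact p2 _ _ _ _

theorem tht_Ivl : tht g ∈ Ivl (LL 𝔤) (Fin 2) := by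
  intro X hX
  funext I
  unfold act tht
  rw [Fin.sum_univ_two]
  have h1 := congrFun (congrFun (LL_sp X hX) (I 0)) (I 1)
  rw [Matrix.add_apply, Matrix.mul_apply, Matrix.mul_apply, Matrix.zero_apply] at h1
  have e1 : ∀ j, X j (I 0) * Om g ℂ (Function.update I 0 j 0) (Function.update I 0 j 1) =
      Xᵀ (I 0) j * Om g ℂ j (I 1) := by
    intro j
    rw [Function.update_self, Function.update_of_ne (by decide), Matrix.transpose_apply]
  have e2 : ∀ j, X j (I 1) * Om g ℂ (Function.update I 1 j 0) (Function.update I 1 j 1) =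
      Om g ℂ (I 0) j * X j (I 1) := by
    intro j
    rw [Function.update_self, Function.update_of_ne (by decide), mul_comm]
  rw [Pi.zero_apply, Finset.sum_congr rfl fun j _ => e1 j, Finset.sum_congr rfl fun j _ => e2 j, h1]

theorem TF_two (𝒜 : TSys K g 𝔤) : Ivl (LL 𝔤) (Fin 2) ≤ TF 𝒜 (Fin 2) := by
  intro u hu i1 i2 ι i3 m
  obtain rfl : i1 = Fin.fintype 2 := Subsingleton.elim _ _
  obtain rfl : i2 = instDecidableEqFin 2 := Subsingleton.elim _ _
  exact gT_mem0 𝒜 (r := 1) (fun f hf => 𝒜.divisor f hf) hu m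

/-- The family of the tensors with alternations in the system. -/
def famTF (𝒜 : TSys K g 𝔤) : Fam (Om g ℂ) where
  N := TF 𝒜
  unit := fun κ _ u => TF_unit κ u
  rnm := fun e u hu => TF_rnm e u hu
  prd := fun u v hu hv => TF_prd u v hu hv
  ctr := fun u hu => TF_ctr (TF_two 𝒜 tht_Ivl) u hu

/-- All Tate classes. -/
theorem allTate_of (𝒜 : TSys K g 𝔤)
    (hg : ∀ X ∈ 𝔤, ∃ c : K, Xᵀ * Om g K + Om g K * X = c • Om g K) {ι : Type} [Fintype ι]
    [DecidableEq ι] {r : ℕ} (hall : Ivl (LL 𝔤) (Fin (2 * r)) ≤ TF 𝒜 (Fin (2 * r)))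
    (f : (ι → VV K g) [⋀^Fin (2 * r)]→ₗ[K] K) (hf : IsTate 𝔤 f) : 𝒜.A ι (Fin (2 * r)) f := by
  refine RT_descent ?_
  let F : (Fin (2 * r) → ι) → MultilinearMap K (fun _ : Fin (2 * r) => VV K g) K := fun c =>
    f.toMultilinearMap.compLinearMap fun k => LinearMap.single K (fun _ : ι => VV K g) (c k)
  have hF : ∀ c w, F c w = f fun k => Pi.single (c k) (w k) := fun c w => rfl
  let U : (Fin (2 * r) → ι) → Tn (Fin (2 * r)) (Fin g ⊕ Fin g) := fun c I =>
    algebraMap K ℂ (F c fun k => Pi.single (I k) 1)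
  have hU : ∀ c (w : Fin (2 * r) → VV K g), evalF (U c) (fun k => cc (w k)) =
      algebraMap K ℂ (F c w) := by
    intro c w
    have e1 : F c w = ∑ I : Fin (2 * r) → Fin g ⊕ Fin g, (F c fun k => Pi.single (I k) 1) *
        ∏ k, w k (I k) := by
      have e2 : w = fun k => ∑ b, w k b • (Pi.single b 1 : VV K g) := by
        funext k
        exact pi_eq_sum_univ' (w k)
      conv_lhs => rw [e2]
      rw [MultilinearMap.map_sum]
      refine Finset.sum_congr rfl fun I _ => ?_
      rw [MultilinearMap.map_smul_univ, smul_eq_mul, mul_comm]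
    rw [e1, map_sum]
    unfold evalF
    refine Finset.sum_congr rfl fun I _ => ?_
    rw [map_mul, map_prod]
    rfl
  -- the invariance
  have hinv : ∀ c, U c ∈ Ivl (LL 𝔤) (Fin (2 * r)) := by
    intro c
    have h1 : LL 𝔤 ≤ LinearMap.ker (actL (U c)) := by
      refine Submodule.span_le.2 ?_
      rintro _ ⟨X, hX, a, ha, rfl⟩
      rw [SetLike.mem_coe, LinearMap.mem_ker, actL_apply, act_sub_left, act_smul_left,
        act_one_eq, smul_smul, sub_eq_zero]
      funext I
      have h2 := evalF_act (X.map (algebraMap K ℂ)) (U c)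
        fun k => cc (Pi.single (I k) 1 : VV K g)
      have h3 : ∀ u : Tn (Fin (2 * r)) (Fin g ⊕ Fin g),
          evalF u (fun k => cc (Pi.single (I k) 1 : VV K g)) = u I := by
        intro u
        have e1 : (fun k => cc (Pi.single (I k) 1 : VV K g)) =
            fun k => (Pi.single (I k) 1 : Fin g ⊕ Fin g → ℂ) := by
          funext k
          exact cc_single _
        rw [e1, MS.evalF_single]
      rw [h3] at h2
      rw [h2, Pi.smul_apply, smul_eq_mul]
      have h4 : ∀ k, evalF (U c) (Function.update (fun k => cc (Pi.single (I k) 1 : VV K g)) k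
          (X.map (algebraMap K ℂ) *ᵥ cc (Pi.single (I k) 1 : VV K g))) =
          algebraMap K ℂ (f (Function.update (fun k => Pi.single (c k) (Pi.single (I k) 1)) k
            fun i => X *ᵥ (Pi.single (c k) (Pi.single (I k) 1) : ι → VV K g) i)) := by
        intro k
        have e1 : (Function.update (fun k => cc (Pi.single (I k) 1 : VV K g)) k
          (X.map (algebraMap K ℂ) *ᵥ cc (Pi.single (I k) 1 : VV K g))) = fun l => cc
            ((Function.update (fun k => (Pi.single (I k) 1 : VV K g)) k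
              (X *ᵥ (Pi.single (I k) 1 : VV K g))) l) := by
          funext l
          by_cases hl : l = k
          · subst hl
            rw [Function.update_self, Function.update_self, cc_mulVec]
          · rw [Function.update_of_ne hl, Function.update_of_ne hl]
        rw [e1, hU, hF]
        congr 2
        funext l
        by_cases hl : l = k
        · subst hl
          rw [Function.update_self, Function.update_self]
          funext i
          by_cases hi : i = c l
          · subst hi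
            rw [Pi.single_eq_same, Pi.single_eq_same]
          · rw [Pi.single_eq_of_ne hi, Pi.single_eq_of_ne hi, Matrix.mulVec_zero]
        · rw [Function.update_of_ne hl, Function.update_of_ne hl]
      rw [Finset.sum_congr rfl fun k _ => h4 k, ← map_sum, hf X hX a ha, Fintype.card_fin]
      have h5 : U c I = algebraMap K ℂ (f fun k => Pi.single (c k) (Pi.single (I k) 1)) := rfl
      rw [h5, map_mul, map_mul, map_natCast]
      push_cast
      ring
    intro Y hY
    have h2 := h1 hY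
    rwa [LinearMap.mem_ker, actL_apply] at h2
  -- the expansion
  have hexp : (fun v : Fin (2 * r) → ι → VV K g => algebraMap K ℂ (f v)) =
      ((Fintype.card (Perm (Fin (2 * r))) : ℂ))⁻¹ •
      ∑ c : Fin (2 * r) → ι, gT (fun k => homR (Pi.single (c k) 1)) (U c) := by
    funext v
    have e1 : ∀ σ : Perm (Fin (2 * r)), ((Perm.sign σ : ℤ) : ℂ) *
        ∑ c : Fin (2 * r) → ι, evalF (U c) (fun k => cc (homR (K := K) (Pi.single (c k) 1)
          (v (σ k)))) = algebraMap K ℂ (f v) := by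
      intro σ
      have e2 : f (fun k => v (σ k)) = ∑ c : Fin (2 * r) → ι, F c fun k => v (σ k) (c k) := by
        have e3 : (fun k => v (σ k)) = fun k => ∑ j, (Pi.single j (v (σ k) j) : ι → VV K g) := by
          funext k
          exact (Finset.univ_sum_single (v (σ k))).symm
        rw [e3]
        exact f.toMultilinearMap.map_sum fun k j => Pi.single j (v (σ k) j)
      have e4 : f (fun k => v (σ k)) = ((Perm.sign σ : ℤ) : K) * f v := by
        have e5 := f.map_perm v σ
        rw [Units.smul_def, zsmul_eq_mul] at e5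
        exact e5
      have e6 : ∑ c : Fin (2 * r) → ι, evalF (U c) (fun k => cc (homR (K := K) (Pi.single (c k) 1)
          (v (σ k)))) = algebraMap K ℂ (f (fun k => v (σ k))) := by
        rw [e2, map_sum]
        refine Finset.sum_congr rfl fun c _ => ?_
        rw [hU]
        congr 2
        funext k
        rw [homR_apply, Finset.sum_eq_single (c k), Pi.single_eq_same, Int.cast_one, one_smul]
        · intro j _ hj
          rw [Pi.single_eq_of_ne hj, Int.cast_zero, zero_smul]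
        · intro h0
          exact absurd (Finset.mem_univ _) h0
      rw [e6, e4, map_mul, map_intCast, ← mul_assoc, ← Int.cast_mul, ← Units.val_mul,
        Int.units_mul_self]
      norm_num
    rw [Pi.smul_apply, Finset.sum_apply, smul_eq_mul]
    unfold gT
    rw [Finset.sum_comm]
    have e7 : ∀ σ : Perm (Fin (2 * r)), ∑ c : Fin (2 * r) → ι, ((Perm.sign σ : ℤ) : ℂ) *
        evalF (U c) (fun k => cc (homR (K := K) (Pi.single (c k) 1) (v (σ k)))) =
        algebraMap K ℂ (f v) := by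
      intro σ
      rw [← Finset.mul_sum]
      exact e1 σ
    rw [Finset.sum_congr rfl fun σ _ => e7 σ, Finset.sum_const, Finset.card_univ, nsmul_eq_mul,
      ← mul_assoc, inv_mul_cancel₀, one_mul]
    exact_mod_cast Fintype.card_ne_zero
  rw [hexp]
  exact Submodule.smul_mem _ _ (Submodule.sum_mem _ fun c _ =>
    hall (hinv c) inferInstance inferInstance ι inferInstance _)

/-- **The Tate conjecture for the powers.** -/
theorem tate_of_square {I J : Type} [Fintype I] [Fintype J] {S : J → I → Prop}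
    {ρ : I → Matrix (Fin 2) (Fin 2) ℂ →ₗ[ℂ] Matrix (Fin g ⊕ Fin g) (Fin g ⊕ Fin g) ℂ}
    {p : J → Matrix (Fin g ⊕ Fin g) (Fin g ⊕ Fin g) ℂ} (h : PT (LL 𝔤) S ρ p)
    (hg : ∀ X ∈ 𝔤, ∃ c : K, Xᵀ * Om g K + Om g K * X = c • Om g K) (𝒜 : TSys K g 𝔤)
    (h2 : ∀ f : (Fin 2 → VV K g) [⋀^Fin (2 * 2)]→ₗ[K] K, IsTate 𝔤 f →
      𝒜.A (Fin 2) (Fin (2 * 2)) f)
    (h1 : ∀ (N : Finset J) (r : ℕ), N.Nonempty → N.card = 2 * r →
      (∀ (i : I) (T : Finset J), (∀ j, j ∈ T ↔ j ∈ N ∧ S j i) → Even T.card) →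
      ∀ f : (Fin 1 → VV K g) [⋀^Fin (2 * r)]→ₗ[K] K, IsTate 𝔤 f → 𝒜.A (Fin 1) (Fin (2 * r)) f)
    {ι : Type} [Fintype ι] {r : ℕ} (f : (ι → VV K g) [⋀^Fin (2 * r)]→ₗ[K] K)
    (hf : IsTate 𝔤 f) : 𝒜.A ι (Fin (2 * r)) f := by
  classical
  refine allTate_of 𝒜 hg ?_ f hf
  refine GP.inv_mem h LL_sp (Om_sq ℂ) (Om_transpose ℂ) (famTF 𝒜) (TF_two 𝒜)
    (fun t ht h1 h2' => TF_anti 𝒜 h2 t ht h1 h2') (fun N hne hev hN κ _ _ hκ t ht h3 => ?_)
    (2 * r) (Fin (2 * r)) (Fintype.card_fin _) (even_two_mul r)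
  obtain ⟨s, hs⟩ := hev
  have hs' : N.card = 2 * s := by omega
  exact TF_alt 𝒜 (r := s) (h1 N s hne hs' hN) κ (hκ.trans hs') t ht h3

end

end Pool.Agent.H841.TT
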