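import Pool.Agent.H841.TT.Defs
import Pool.Graph.R_seed8.Y90.Ring

/-!
# The complex span of a system of classes
-/

set_option linter.unusedSectionVars false

namespace Pool.Agent.H841.TT

open Matrix Module Pool.Agent.W437.HC

noncomputable section

variable {K : Type} [Field K] [Algebra K ℂ] {g : ℕ} {𝔤 : Set (Mt K g)}

section ra

/-- The complex span of the system. -/
def RT (𝒜 : TSys K g 𝔤) (ι κ : Type) : Submodule ℂ ((κ → ι → VV K g) → ℂ) :=
  Submodule.span ℂ {F | ∃ r, 𝒜.A ι κ r ∧ F = fun v => algebraMap K ℂ (r v)}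

variable {𝒜 : TSys K g 𝔤} {ι : Type}

theorem RT_of {κ : Type} {r : (ι → VV K g) [⋀^κ]→ₗ[K] K} (h : 𝒜.A ι κ r) :
    (fun v => algebraMap K ℂ (r v)) ∈ RT 𝒜 ι κ := Submodule.subset_span ⟨r, h, rfl⟩

theorem RT_reindex {κ κ' : Type} (e : κ ≃ κ') {F : (κ → ι → VV K g) → ℂ} (hF : F ∈ RT 𝒜 ι κ) :
    (fun v => F (fun k => v (e k))) ∈ RT 𝒜 ι κ' := by
  unfold RT at hF
  induction hF using Submodule.span_induction with
  | mem F hF =>
    obtain ⟨r, hr, rfl⟩ := hF
    exact RT_of (𝒜.reindex e _ hr)
  | zero => exact Submodule.zero_mem _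
  | add x y _ _ hx hy => exact Submodule.add_mem _ hx hy
  | smul c x _ hx => exact Submodule.smul_mem _ c hx

theorem RT_pull {ι' : Type} [Fintype ι] [Fintype ι'] (M : Matrix ι ι' ℤ) {κ : Type}
    {F : (κ → ι → VV K g) → ℂ} (hF : F ∈ RT 𝒜 ι κ) :
    (fun v : κ → ι' → VV K g => F (fun k => homM M (v k))) ∈ RT 𝒜 ι' κ := by
  unfold RT at hF
  induction hF using Submodule.span_induction with
  | mem F hF =>
    obtain ⟨r, hr, rfl⟩ := hF
    exact RT_of (𝒜.pull M _ hr)
  | zero => exact Submodule.zero_mem _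
  | add x y _ _ hx hy => exact Submodule.add_mem _ hx hy
  | smul c x _ hx => exact Submodule.smul_mem _ c hx

/-- The restriction of a form to the first factor, the other variables being fixed in the second. -/
def restr {ι' : Type} {κ κ' : Type} (b : κ' → ι' → VV K g)
    (f : (ι ⊕ ι' → VV K g) [⋀^κ ⊕ κ']→ₗ[K] K) : (ι → VV K g) [⋀^κ]→ₗ[K] K where
  toFun v := f (Sum.elim (fun k => Sum.elim (v k) 0) fun k => Sum.elim 0 (b k))
  map_update_add' := by
    intro _ v k x y
    let _ : DecidableEq κ' := Classical.decEq κ'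
    have h1 : ∀ z : ι → VV K g, (Sum.elim (fun l => Sum.elim (Function.update v k z l) 0)
        fun l => Sum.elim 0 (b l) : κ ⊕ κ' → ι ⊕ ι' → VV K g) =
        Function.update (Sum.elim (fun l => Sum.elim (v l) 0) fun l => Sum.elim 0 (b l))
          (Sum.inl k) (Sum.elim z 0) := by
      intro z
      funext l
      rcases l with l | l
      · by_cases hl : l = k
        · subst hl
          simp
        · rw [Sum.elim_inl, Function.update_of_ne hl,
            Function.update_of_ne (fun h => hl (Sum.inl_injective h)), Sum.elim_inl]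
      · rw [Sum.elim_inr, Function.update_of_ne (by simp), Sum.elim_inr]
    have h2 : (Sum.elim (x + y) 0 : ι ⊕ ι' → VV K g) = Sum.elim x 0 + Sum.elim y 0 := by
      funext m
      rcases m with m | m
      · rfl
      · exact (add_zero _).symm
    rw [h1, h1, h1, h2, AlternatingMap.map_update_add]
  map_update_smul' := by
    intro _ v k c x
    let _ : DecidableEq κ' := Classical.decEq κ'
    have h1 : ∀ z : ι → VV K g, (Sum.elim (fun l => Sum.elim (Function.update v k z l) 0)
        fun l => Sum.elim 0 (b l) : κ ⊕ κ' → ι ⊕ ι' → VV K g) =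
        Function.update (Sum.elim (fun l => Sum.elim (v l) 0) fun l => Sum.elim 0 (b l))
          (Sum.inl k) (Sum.elim z 0) := by
      intro z
      funext l
      rcases l with l | l
      · by_cases hl : l = k
        · subst hl
          simp
        · rw [Sum.elim_inl, Function.update_of_ne hl,
            Function.update_of_ne (fun h => hl (Sum.inl_injective h)), Sum.elim_inl]
      · rw [Sum.elim_inr, Function.update_of_ne (by simp), Sum.elim_inr]
    have h2 : (Sum.elim (c • x) 0 : ι ⊕ ι' → VV K g) = c • Sum.elim x 0 := by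
      funext m
      rcases m with m | m
      · rfl
      · exact (smul_zero c).symm
    rw [h1, h1, h2, AlternatingMap.map_update_smul]
  map_eq_zero_of_eq' := by
    intro v k l hkl hne
    refine f.map_eq_zero_of_eq _ (i := Sum.inl k) (j := Sum.inl l) ?_
      (fun h => hne (Sum.inl_injective h))
    rw [Sum.elim_inl, Sum.elim_inl, hkl]

theorem RT_push {ι' : Type} [Fintype ι] [Fintype ι'] {κ κ' : Type}
    (b : Basis κ' K (ι' → VV K g)) {F : (κ ⊕ κ' → ι ⊕ ι' → VV K g) → ℂ}
    (hF : F ∈ RT 𝒜 (ι ⊕ ι') (κ ⊕ κ')) :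
    (fun v : κ → ι → VV K g => F (Sum.elim (fun k => Sum.elim (v k) 0)
      fun k => Sum.elim 0 (b k))) ∈ RT 𝒜 ι κ := by
  unfold RT at hF
  induction hF using Submodule.span_induction with
  | mem F hF =>
    obtain ⟨r, hr, rfl⟩ := hF
    exact RT_of (𝒜.push b r hr (restr b r) fun v => rfl)
  | zero => exact Submodule.zero_mem _
  | add x y _ _ hx hy => exact Submodule.add_mem _ hx hy
  | smul c x _ hx => exact Submodule.smul_mem _ c hx

/-- Products. -/
def mulT {κ κ' : Type} [Fintype κ] [DecidableEq κ] [Fintype κ'] [DecidableEq κ']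
    (F : (κ → ι → VV K g) → ℂ) (F' : (κ' → ι → VV K g) → ℂ) (v : κ ⊕ κ' → ι → VV K g) : ℂ :=
  ∑ σ : Equiv.Perm (κ ⊕ κ'), ((Equiv.Perm.sign σ : ℤ) : ℂ) *
    (F (fun k => v (σ (Sum.inl k))) * F' (fun k => v (σ (Sum.inr k))))

theorem RT_mul {κ κ' : Type} [Fintype κ] [DecidableEq κ] [Fintype κ'] [DecidableEq κ']
    {F : (κ → ι → VV K g) → ℂ} {F' : (κ' → ι → VV K g) → ℂ} (hF : F ∈ RT 𝒜 ι κ)
    (hF' : F' ∈ RT 𝒜 ι κ') : mulT F F' ∈ RT 𝒜 ι (κ ⊕ κ') := by
  unfold RT at hF
  induction hF using Submodule.span_induction with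
  | mem F hF =>
    obtain ⟨r, hr, rfl⟩ := hF
    unfold RT at hF'
    induction hF' using Submodule.span_induction with
    | mem F' hF' =>
      obtain ⟨r', hr', rfl⟩ := hF'
      let h : (ι → VV K g) [⋀^κ ⊕ κ']→ₗ[K] K := MultilinearMap.alternatization
        (Pool.Agent.Y90.prd r.toMultilinearMap r'.toMultilinearMap)
      have hh : ∀ v : κ ⊕ κ' → ι → VV K g, h v = ∑ σ : Equiv.Perm (κ ⊕ κ'),
          ((Equiv.Perm.sign σ : ℤ) : K) *
            (r (fun k => v (σ (Sum.inl k))) * r' (fun k => v (σ (Sum.inr k)))) := by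
        intro v
        rw [MultilinearMap.alternatization_apply]
        refine Finset.sum_congr rfl fun σ _ => ?_
        rw [MultilinearMap.domDomCongr_apply, Pool.Agent.Y90.prd_apply, Units.smul_def,
          zsmul_eq_mul]
        rfl
      have h1 := RT_of (𝒜.cup r r' hr hr' h hh)
      have h2 : (fun v => algebraMap K ℂ (h v)) =
          mulT (fun v => algebraMap K ℂ (r v)) (fun v => algebraMap K ℂ (r' v)) := by
        funext v
        rw [hh]
        unfold mulT
        rw [map_sum]
        refine Finset.sum_congr rfl fun σ _ => ?_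
        rw [map_mul, map_mul, map_intCast]
      rwa [h2] at h1
    | zero =>
      have h2 : mulT (fun v => algebraMap K ℂ (r v)) (0 : (κ' → ι → VV K g) → ℂ) = 0 := by
        funext v
        simp [mulT]
      rw [h2]
      exact Submodule.zero_mem _
    | add x y _ _ hx hy =>
      have h2 : mulT (fun v => algebraMap K ℂ (r v)) (x + y) =
          mulT (fun v => algebraMap K ℂ (r v)) x + mulT (fun v => algebraMap K ℂ (r v)) y := by
        funext v
        simp only [mulT, Pi.add_apply, mul_add, Finset.sum_add_distrib]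
      rw [h2]
      exact Submodule.add_mem _ hx hy
    | smul c x _ hx =>
      have h2 : mulT (fun v => algebraMap K ℂ (r v)) (c • x) =
          c • mulT (fun v => algebraMap K ℂ (r v)) x := by
        funext v
        simp only [mulT, Pi.smul_apply, smul_eq_mul, Finset.mul_sum]
        refine Finset.sum_congr rfl fun σ _ => by ring
      rw [h2]
      exact Submodule.smul_mem _ _ hx
  | zero =>
    have h2 : mulT (0 : (κ → ι → VV K g) → ℂ) F' = 0 := by
      funext v
      simp [mulT]
    rw [h2]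
    exact Submodule.zero_mem _
  | add x y _ _ hx hy =>
    have h2 : mulT (x + y) F' = mulT x F' + mulT y F' := by
      funext v
      simp only [mulT, Pi.add_apply, add_mul, mul_add, Finset.sum_add_distrib]
    rw [h2]
    exact Submodule.add_mem _ hx hy
  | smul c x _ hx =>
    have h2 : mulT (c • x) F' = c • mulT x F' := by
      funext v
      simp only [mulT, Pi.smul_apply, smul_eq_mul, Finset.mul_sum]
      refine Finset.sum_congr rfl fun σ _ => by ring
    rw [h2]
    exact Submodule.smul_mem _ _ hx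

theorem RT_lam {κ : Type} {F : (κ → ι → VV K g) → ℂ} (hF : F ∈ RT 𝒜 ι κ) :
    ∀ l : ℂ →ₗ[K] K, ∃ r, 𝒜.A ι κ r ∧ ∀ v, l (F v) = r v := by
  unfold RT at hF
  induction hF using Submodule.span_induction with
  | mem F hF =>
    obtain ⟨r, hr, rfl⟩ := hF
    intro l
    refine ⟨l 1 • r, 𝒜.smul _ _ hr, fun v => ?_⟩
    beta_reduce
    rw [Algebra.algebraMap_eq_smul_one, map_smul, AlternatingMap.smul_apply, smul_eq_mul,
      smul_eq_mul, mul_comm]
  | zero =>
    intro l
    refine ⟨0, 𝒜.zero ι κ, fun v => ?_⟩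
    rw [Pi.zero_apply, map_zero]
    rfl
  | add x y _ _ hx hy =>
    intro l
    obtain ⟨r, hr, h1⟩ := hx l
    obtain ⟨r', hr', h2⟩ := hy l
    refine ⟨r + r', 𝒜.add _ _ hr hr', fun v => ?_⟩
    rw [Pi.add_apply, map_add, h1, h2]
    rfl
  | smul c x _ hx =>
    intro l
    obtain ⟨r, hr, h1⟩ := hx (l.comp ((LinearMap.mulLeft ℂ c).restrictScalars K))
    exact ⟨r, hr, h1⟩

theorem exists_lam : ∃ l : ℂ →ₗ[K] K, l 1 = 1 := by
  obtain ⟨l, hl⟩ : ∃ l : ℂ →ₗ[K] K, l 1 ≠ 0 := by
    by_contra hcon
    push Not at hcon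
    exact one_ne_zero ((Module.forall_dual_apply_eq_zero_iff K (1 : ℂ)).1 hcon)
  exact ⟨(l 1)⁻¹ • l, by rw [LinearMap.smul_apply, smul_eq_mul, inv_mul_cancel₀ hl]⟩

/-- Forms over `K` in the complex span belong to the system. -/
theorem RT_descent {κ : Type} {f : (ι → VV K g) [⋀^κ]→ₗ[K] K}
    (hf : (fun v => algebraMap K ℂ (f v)) ∈ RT 𝒜 ι κ) : 𝒜.A ι κ f := by
  obtain ⟨l, hl⟩ := exists_lam (K := K)
  obtain ⟨r, hr, h1⟩ := RT_lam hf l
  have h2 : r = f := by
    ext v
    rw [← h1]
    beta_reduce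
    rw [Algebra.algebraMap_eq_smul_one, map_smul, hl, smul_eq_mul, mul_one]
  rw [← h2]
  exact hr

end ra

/-- Complex valued alternating forms which satisfy the conditions of the Tate classes belong to the
complex span of the Tate classes. -/
theorem RT_of_tate (𝒜 : TSys K g 𝔤) {ι : Type} [Fintype ι] {r : ℕ}
    (hall : ∀ f : (ι → VV K g) [⋀^Fin (2 * r)]→ₗ[K] K, IsTate 𝔤 f → 𝒜.A ι (Fin (2 * r)) f)
    (F : (ι → VV K g) [⋀^Fin (2 * r)]→ₗ[K] ℂ)
    (hF : ∀ X ∈ 𝔤, ∀ c : K, Xᵀ * Om g K + Om g K * X = c • Om g K →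
      ∀ v : Fin (2 * r) → ι → VV K g,
        ∑ k, F (Function.update v k fun i => X *ᵥ v k i) = ((r : K) * c) • F v) :
    (F : (Fin (2 * r) → ι → VV K g) → ℂ) ∈ RT 𝒜 ι (Fin (2 * r)) := by
  classical
  let b := Basis.ofVectorSpace K ℂ
  let e := Module.finBasis K (ι → VV K g)
  let T : Finset (Basis.ofVectorSpaceIndex K ℂ) := Finset.univ.biUnion
    fun x : Fin (2 * r) → Fin (Module.finrank K (ι → VV K g)) =>
      (b.repr (F fun k => e (x k))).support
  let G : Basis.ofVectorSpaceIndex K ℂ → (ι → VV K g) [⋀^Fin (2 * r)]→ₗ[K] K := fun s =>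
    (b.coord s).compAlternatingMap F
  have hG : ∀ s, IsTate 𝔤 (G s) := by
    intro s X hX c hc v
    have h1 := congrArg (b.coord s) (hF X hX c hc v)
    rw [map_sum, map_smul] at h1
    exact h1
  have h1 : F.toMultilinearMap = ∑ s ∈ T, (LinearMap.toSpanSingleton K ℂ (b s)).compMultilinearMap
      (G s).toMultilinearMap := by
    refine Basis.ext_multilinear (fun _ => e) fun x => ?_
    rw [MultilinearMap.sum_apply]
    change F (fun k => e (x k)) = ∑ s ∈ T, (b.repr (F fun k => e (x k)) s) • b s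
    have h2 : (b.repr (F fun k => e (x k))).support ⊆ T :=
      Finset.subset_biUnion_of_mem (fun x : Fin (2 * r) → Fin (Module.finrank K (ι → VV K g)) =>
        (b.repr (F fun k => e (x k))).support) (Finset.mem_univ x)
    conv_lhs => rw [← b.linearCombination_repr (F fun k => e (x k)),
      Finsupp.linearCombination_apply, Finsupp.sum_of_support_subset _ h2 _
        (fun s _ => zero_smul K (b s))]
  have h3 : (F : (Fin (2 * r) → ι → VV K g) → ℂ) =
      ∑ s ∈ T, b s • fun v => algebraMap K ℂ (G s v) := by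
    funext v
    have h4 := congrArg (fun H : MultilinearMap K (fun _ : Fin (2 * r) => ι → VV K g) ℂ => H v) h1
    beta_reduce at h4
    rw [MultilinearMap.sum_apply] at h4
    rw [Finset.sum_apply]
    refine Eq.trans h4 (Finset.sum_congr rfl fun s _ => ?_)
    change (G s v) • b s = b s * algebraMap K ℂ (G s v)
    rw [Algebra.smul_def, mul_comm]
  rw [h3]
  exact Submodule.sum_mem _ fun s _ => Submodule.smul_mem _ _ (RT_of (hall _ (hG s)))

end

end Pool.Agent.H841.TT
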